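import Mathlib
import Pool.Agent.H692R2.USS.T1

set_option autoImplicit false

/-!
# Cousin cyclic numbers between consecutive cubes: counting lemmas
-/

namespace Q43.Cous

open Finset

/-- A pairwise congruent set in a window. -/
lemma card_le_of_modEq {S : Finset ℕ} {A h d : ℕ}
    (hS : ∀ m ∈ S, A < m ∧ m ≤ A + h)
    (hmod : ∀ m ∈ S, ∀ m' ∈ S, m ≡ m' [MOD d]) : S.card ≤ h / d + 1 := by
  have : S.card ≤ (Finset.range (h/d+1)).card := by
    apply Finset.card_le_card_of_injOn (fun m => (m - (A+1)) / d)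
    · intro m hm
      have := hS m hm
      simp only [Finset.coe_range, Set.mem_Iio]
      have : (m - (A+1)) / d ≤ h / d := Nat.div_le_div_right (by omega)
      omega
    · intro m hm m' hm' heq
      simp only at heq
      have h1 := hS m hm
      have h2 := hS m' hm'
      have h3 := hmod m hm m' hm'
      have h4 : (m - (A+1)) % d = (m' - (A+1)) % d := by
        have : (m - (A+1)) ≡ (m' - (A+1)) [MOD d] := by
          have e1 : m = (m - (A+1)) + (A+1) := by omega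
          have e2 : m' = (m' - (A+1)) + (A+1) := by omega
          rw [e1, e2] at h3
          exact Nat.ModEq.add_right_cancel' _ h3
        exact this
      have h5 : m - (A+1) = m' - (A+1) := by
        rw [← Nat.div_add_mod (m-(A+1)) d, ← Nat.div_add_mod (m'-(A+1)) d, heq, h4]
      omega
  simpa using this

/-- Primes in a pairwise congruent set in a window (Brun-Titchmarsh). -/
lemma card_primes_le {S : Finset ℕ} {A h d : ℕ} (hd : 0 < d)
    (hS : ∀ m ∈ S, A < m ∧ m ≤ A + h) (hp : ∀ m ∈ S, m.Prime)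
    (hmod : ∀ m ∈ S, ∀ m' ∈ S, m ≡ m' [MOD d]) (hK : 2 ≤ h/d+1) :
    (S.card : ℝ) ≤ 22 * ((d:ℝ)/Nat.totient d) * ((h/d+1 : ℕ) : ℝ)
      / Real.log ((h/d+1 : ℕ):ℝ) := by
  rcases S.eq_empty_or_nonempty with rfl | hne
  · have : 0 ≤ Real.log ((h/d+1 : ℕ):ℝ) := Real.log_natCast_nonneg _
    simp only [Finset.card_empty, Nat.cast_zero]
    positivity
  · set m₀ := S.min' hne with hm₀
    have hm₀S : m₀ ∈ S := S.min'_mem hne
    have hmin : ∀ m ∈ S, m₀ ≤ m := fun m hm => S.min'_le m hm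
    have hform : ∀ m ∈ S, m₀ + (m - m₀) / d * d = m := by
      intro m hm
      have h1 := hmod m₀ hm₀S m hm
      have h2 : d ∣ m - m₀ := (Nat.modEq_iff_dvd' (hmin m hm)).mp h1
      rw [Nat.div_mul_cancel h2]
      have := hmin m hm
      omega
    refine le_trans ?_ (Pool.Agent.H692R2.USS.t1_brun_titchmarsh m₀ d (h/d+1) hK hd)
    have : S.card ≤ ((Finset.range (h/d+1)).filter (fun k => (m₀ + k * d).Prime)).card := by
      apply Finset.card_le_card_of_injOn (fun m => (m - m₀) / d)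
      · intro m hm
        have hm' : m ∈ S := hm
        simp only [Finset.coe_filter, Finset.mem_range, Set.mem_ofPred_eq]
        refine ⟨?_, ?_⟩
        · have h1 := hS m hm'
          have h2 := hS m₀ hm₀S
          have : (m - m₀) / d ≤ h / d := Nat.div_le_div_right (by omega)
          omega
        · rw [hform m hm']
          exact hp m hm'
      · intro m hm m' hm' heq
        simp only at heq
        rw [← hform m hm, ← hform m' hm', heq]
    exact_mod_cast this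

/-- A prime dividing `φ m`. -/
lemma dvd_totient {p m : ℕ} (hp : p.Prime) (hm : m ≠ 0) (h : p ∣ Nat.totient m) :
    p ^ 2 ∣ m ∨ ∃ q, q.Prime ∧ q ∣ m ∧ p ∣ q - 1 := by
  rw [Nat.totient_eq_prod_factorization hm, Finsupp.prod] at h
  obtain ⟨q, hq, hpq⟩ := (Prime.dvd_finsetProd_iff hp.prime _).mp h
  have hqp : q.Prime := Nat.prime_of_mem_primeFactors hq
  have hqm : q ∣ m := Nat.dvd_of_mem_primeFactors hq
  rcases (Nat.Prime.dvd_mul hp).mp hpq with h1 | h1
  · left
    have h2 : p ∣ q := hp.dvd_of_dvd_pow h1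
    have h3 : p = q := (Nat.prime_dvd_prime_iff_eq hp hqp).mp h2
    subst h3
    have h4 : m.factorization p - 1 ≠ 0 := by
      intro h0
      rw [h0, pow_zero] at h1
      exact hp.one_lt.ne' (Nat.dvd_one.mp h1)
    rw [hp.pow_dvd_iff_le_factorization hm]
    omega
  · right
    exact ⟨q, hqp, hqm, h1⟩

lemma not_cyc {m : ℕ} (hm : m ≠ 0) (h : ¬ Nat.Coprime m (Nat.totient m)) :
    ∃ p, p.Prime ∧ p ∣ m ∧ (p ^ 2 ∣ m ∨ ∃ q, q.Prime ∧ q ∣ m ∧ p ∣ q - 1) := by
  obtain ⟨p, hp, h1, h2⟩ := Nat.Prime.not_coprime_iff_dvd.mp h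
  exact ⟨p, hp, h1, dvd_totient hp hm h2⟩

/-- harmonic sum. -/
lemma sum_inv_le (N : ℕ) : ∑ i ∈ Finset.Icc 1 N, (i : ℝ)⁻¹ ≤ 1 + Real.log N := by
  have h := harmonic_le_one_add_log N
  rw [harmonic_eq_sum_Icc] at h
  push_cast at h
  exact h

lemma ratio_le {p : ℕ} (hp : p.Prime) : ((p : ℝ) / Nat.totient p) ≤ 2 := by
  rw [Nat.totient_prime hp]
  have h2 : 2 ≤ p := hp.two_le
  have h3 : ((p - 1 : ℕ) : ℝ) = (p : ℝ) - 1 := by
    rw [Nat.cast_sub (by omega), Nat.cast_one]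
  have h4 : (2 : ℝ) ≤ p := by exact_mod_cast h2
  rw [h3, div_le_iff₀ (by linarith)]
  linarith

/-- dyadic sum over primes `p k + 1`. -/
lemma dyadic {C : ℝ} (hC : 0 < C)
    (hbt : ∀ q l : ℕ, 1 ≤ q →
      (((Finset.Ico (2 ^ l) (2 ^ (l + 1))).filter (fun k => (q * k + 1).Prime)).card : ℝ) ≤
        C * ((q : ℝ) / (Nat.totient q)) * 2 ^ l / ((l : ℝ) + 1))
    {p : ℕ} (hp : p.Prime) (Λ : ℕ) :
    ∑ k ∈ (Finset.Ico 1 (2 ^ Λ)).filter (fun k => (p * k + 1).Prime), (k : ℝ)⁻¹ ≤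
      2 * C * ∑ i ∈ Finset.Icc 1 Λ, (i : ℝ)⁻¹ := by
  induction Λ with
  | zero => simp
  | succ l ih =>
    have h1 : Finset.Ico 1 (2 ^ (l+1)) = Finset.Ico 1 (2^l) ∪ Finset.Ico (2^l) (2^(l+1)) := by
      rw [Finset.Ico_union_Ico_eq_Ico Nat.one_le_two_pow]
      exact Nat.pow_le_pow_right (by norm_num) (by omega)
    rw [h1, Finset.filter_union, Finset.sum_union, Finset.sum_Icc_succ_top (by omega), mul_add]
    · refine add_le_add ih ?_
      have h2 := hbt p l hp.one_lt.le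
      have h3 : ∀ k ∈ (Finset.Ico (2^l) (2^(l+1))).filter (fun k => (p * k + 1).Prime),
          (k : ℝ)⁻¹ ≤ ((2:ℝ)^l)⁻¹ := by
        intro k hk
        rw [Finset.mem_filter, Finset.mem_Ico] at hk
        have : ((2:ℝ)^l) ≤ k := by exact_mod_cast hk.1.1
        exact inv_anti₀ (by positivity) this
      refine (Finset.sum_le_card_nsmul _ _ _ h3).trans ?_
      rw [nsmul_eq_mul]
      have h4 : (((Finset.Ico (2 ^ l) (2 ^ (l + 1))).filter
          (fun k => (p * k + 1).Prime)).card : ℝ) ≤ C * 2 * 2 ^ l / ((l : ℝ) + 1) := by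
        refine h2.trans ?_
        have := ratio_le hp
        gcongr
      calc _ ≤ (C * 2 * 2 ^ l / ((l : ℝ) + 1)) * ((2:ℝ)^l)⁻¹ := by gcongr
        _ = 2 * C * (((l + 1 : ℕ) : ℝ))⁻¹ := by
          push_cast
          field_simp
    · rw [Finset.disjoint_left]
      intro k hk hk'
      rw [Finset.mem_filter, Finset.mem_Ico] at hk hk'
      omega

/-- The window: `m` in `(n^3, n^3 + 2 n^2]`, `m = r mod M`. -/
def win (n M r : ℕ) : Finset ℕ :=
  (Finset.Ioc (n^3) (n^3 + 2 * n^2)).filter (fun m => m ≡ r [MOD M])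

lemma mem_win {n M r m : ℕ} :
    m ∈ win n M r ↔ (n^3 < m ∧ m ≤ n^3 + 2 * n^2) ∧ m ≡ r [MOD M] := by
  simp [win]

lemma coprime_of_mem {n M r m : ℕ} (hr : Nat.Coprime r M) (hm : m ∈ win n M r) :
    Nat.Coprime m M := by
  have := (mem_win.mp hm).2
  rw [Nat.Coprime, Nat.ModEq.gcd_eq this]
  exact hr

/-- Counting multiples of `d` in the window. -/
lemma card_dvd {n M r d : ℕ} (hM : 0 < M) (hd : 0 < d) (hr : Nat.Coprime r M) :
    (((win n M r).filter (fun m => d ∣ m)).card : ℝ) ≤ 2 * n^2 / M / d + 1 := by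
  have h : ((win n M r).filter (fun m => d ∣ m)).card ≤ (2 * n^2) / (M * d) + 1 := by
    apply card_le_of_modEq (A := n^3)
    · intro m hm
      rw [Finset.mem_filter, mem_win] at hm
      exact hm.1.1
    · intro m hm m' hm'
      rw [Finset.mem_filter] at hm hm'
      have hc : Nat.Coprime M d := (Nat.Coprime.coprime_dvd_left hm.2
        (coprime_of_mem hr hm.1)).symm
      rw [← Nat.modEq_and_modEq_iff_modEq_mul hc]
      refine ⟨(mem_win.mp hm.1).2.trans (mem_win.mp hm'.1).2.symm, ?_⟩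
      exact ((Nat.modEq_zero_iff_dvd).mpr hm.2).trans ((Nat.modEq_zero_iff_dvd).mpr hm'.2).symm
  have h2 : (((win n M r).filter (fun m => d ∣ m)).card : ℝ) ≤
      (((2 * n^2) / (M * d) + 1 : ℕ) : ℝ) := by exact_mod_cast h
  refine h2.trans ?_
  push_cast
  have h3 : (((2 * n^2) / (M * d) : ℕ) : ℝ) ≤ ((2 * n^2 : ℕ) : ℝ) / ((M * d : ℕ) : ℝ) :=
    Nat.cast_div_le
  push_cast at h3
  rw [div_div]
  linarith

/-- Sum of inverse squares. -/
lemma sum_inv_sq {z : ℕ} (hz : 0 < z) (Y : ℕ) :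
    ∑ p ∈ Finset.Ioc z Y, ((p:ℝ)^2)⁻¹ ≤ (z:ℝ)⁻¹ := by
  rcases le_or_gt z Y with h | h
  · have := sum_Ioc_inv_sq_le_sub (α := ℝ) hz.ne' h
    have h2 : (0:ℝ) ≤ (Y:ℝ)⁻¹ := by positivity
    linarith
  · rw [Finset.Ioc_eq_empty (by omega)]
    simp

/-- number of `k ≥ 1` with `p k ≤ Y`, summed over `p`. -/
lemma sum_div_le (z Y : ℕ) :
    ∑ p ∈ Finset.Ioc z Y, (Y : ℝ) / p ≤ Y * (1 + Real.log Y) := by
  have h1 : ∑ p ∈ Finset.Ioc z Y, (Y : ℝ) / p ≤ ∑ p ∈ Finset.Icc 1 Y, (Y : ℝ) / p := by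
    apply Finset.sum_le_sum_of_subset_of_nonneg
    · intro p hp
      rw [Finset.mem_Ioc] at hp
      rw [Finset.mem_Icc]
      omega
    · intro p _ _
      positivity
  refine h1.trans ?_
  simp_rw [div_eq_mul_inv]
  rw [← Finset.mul_sum]
  have := sum_inv_le Y
  gcongr

end Q43.Cous
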