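import Mathlib
import Pool.Agent.Q43.Cous.Basic

set_option autoImplicit false

/-!
# Cousin cyclic numbers between consecutive cubes: the bad events
-/

namespace Q43.Cous

open Finset
open scoped Classical

structure Par (n s z M T : ℕ) (g : ℝ) : Prop where
  hz : 1 ≤ z
  hn : 16 ≤ n
  hs : s * s ≤ n
  hs4 : n ≤ 4 * s * s
  hM : 0 < M
  hMp : ∀ p : ℕ, p.Prime → p ≤ z → p ∣ M
  hg : (M:ℝ) / Nat.totient M ≤ g
  hT : z ≤ T
  hv : n * (4 * M * T) ^ 4 ≤ s ^ 4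

variable {n s z M T r : ℕ} {g : ℝ}

lemma le_two_cube (hn : 2 ≤ n) {m : ℕ} (hm : m ∈ win n M r) : m ≤ 2 * n ^ 3 := by
  have h := (mem_win.mp hm).1.2
  have : 2 * n ^ 2 ≤ n ^ 3 := by
    calc 2 * n ^ 2 ≤ n * n ^ 2 := Nat.mul_le_mul_right _ hn
      _ = n ^ 3 := by ring
  omega

lemma partA (P : Par n s z M T g) (hr : Nat.Coprime r M) :
    (((win n M r).filter (fun m => ∃ p : ℕ, p.Prime ∧ z < p ∧ p ^ 2 ∣ m)).card : ℝ) ≤
      2 * n^2 / M * (z:ℝ)⁻¹ + 3 * n * s := by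
  have hsub : (win n M r).filter (fun m => ∃ p : ℕ, p.Prime ∧ z < p ∧ p ^ 2 ∣ m) ⊆
      (Finset.Ioc z (3 * n * s)).biUnion (fun p => (win n M r).filter (fun m => p ^ 2 ∣ m)) := by
    intro m hm
    rw [Finset.mem_filter] at hm
    obtain ⟨hm, p, hp, hzp, hpm⟩ := hm
    rw [Finset.mem_biUnion]
    refine ⟨p, ?_, by rw [Finset.mem_filter]; exact ⟨hm, hpm⟩⟩
    rw [Finset.mem_Ioc]
    refine ⟨hzp, ?_⟩
    have h1 : p ^ 2 ≤ m := Nat.le_of_dvd (by have := (mem_win.mp hm).1.1; omega) hpm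
    have h2 := le_two_cube (by have := P.hn; omega) hm
    have h3 : p ^ 2 ≤ (3 * n * s) ^ 2 := by
      calc p ^ 2 ≤ 2 * n ^ 3 := h1.trans h2
        _ = 2 * n ^ 2 * n := by ring
        _ ≤ 2 * n ^ 2 * (4 * s * s) := Nat.mul_le_mul_left _ P.hs4
        _ ≤ 9 * n ^ 2 * (s * s) := by nlinarith [Nat.zero_le (n ^ 2 * (s * s))]
        _ = (3 * n * s) ^ 2 := by ring
    exact (Nat.pow_le_pow_iff_left (by norm_num)).mp h3
  have h1 : (((win n M r).filter (fun m => ∃ p : ℕ, p.Prime ∧ z < p ∧ p ^ 2 ∣ m)).card : ℝ) ≤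
      ∑ p ∈ Finset.Ioc z (3 * n * s), (((win n M r).filter (fun m => p ^ 2 ∣ m)).card : ℝ) := by
    exact_mod_cast (Finset.card_le_card hsub).trans Finset.card_biUnion_le
  refine h1.trans ?_
  have h2 : ∀ p ∈ Finset.Ioc z (3 * n * s),
      (((win n M r).filter (fun m => p ^ 2 ∣ m)).card : ℝ) ≤
        2 * n^2 / M * ((p:ℝ)^2)⁻¹ + 1 := by
    intro p hp
    rw [Finset.mem_Ioc] at hp
    have := card_dvd (n := n) (M := M) (r := r) (d := p^2) P.hM (Nat.pow_pos (by omega)) hr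
    push_cast at this
    rw [← div_eq_mul_inv]
    exact this
  refine (Finset.sum_le_sum h2).trans ?_
  rw [Finset.sum_add_distrib, ← Finset.mul_sum]
  have h3 := sum_inv_sq (z := z) P.hz (3 * n * s)
  have h4 : ∑ p ∈ Finset.Ioc z (3 * n * s), (1:ℝ) ≤ 3 * n * s := by
    rw [Finset.sum_const, Nat.card_Ioc, nsmul_eq_mul, mul_one]
    have : ((3 * n * s - z : ℕ) : ℝ) ≤ ((3 * n * s : ℕ) : ℝ) := by exact_mod_cast Nat.sub_le _ _
    refine this.trans (le_of_eq ?_)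
    push_cast
    ring
  gcongr

/-- The small `q` part. -/
lemma partB1 {C : ℝ} (hC : 0 < C)
    (hbt : ∀ q l : ℕ, 1 ≤ q →
      (((Finset.Ico (2 ^ l) (2 ^ (l + 1))).filter (fun k => (q * k + 1).Prime)).card : ℝ) ≤
        C * ((q : ℝ) / (Nat.totient q)) * 2 ^ l / ((l : ℝ) + 1))
    (P : Par n s z M T g) (hr : Nat.Coprime r M) {Q Λ : ℕ} (hQ : Q ≤ 2 ^ Λ) :
    (((win n M r).filter (fun m => ∃ p q : ℕ, p.Prime ∧ q.Prime ∧ z < p ∧ p ∣ m ∧ q ∣ m ∧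
        p ∣ q - 1 ∧ q ≤ Q)).card : ℝ) ≤
      2 * n^2 / M * (2 * C * ∑ i ∈ Finset.Icc 1 Λ, (i : ℝ)⁻¹) * (z:ℝ)⁻¹ +
        Q * (1 + Real.log Q) := by
  set I : ℕ → Finset ℕ := fun p => (Finset.Ico 1 (2 ^ Λ)).filter
    (fun k => (p * k + 1).Prime ∧ p * k + 1 ≤ Q) with hI
  set J : Finset ℕ := (Finset.Ioc z Q).filter Nat.Prime with hJ
  have hsub : (win n M r).filter (fun m => ∃ p q : ℕ, p.Prime ∧ q.Prime ∧ z < p ∧ p ∣ m ∧ q ∣ m ∧
        p ∣ q - 1 ∧ q ≤ Q) ⊆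
      J.biUnion (fun p => (I p).biUnion (fun k =>
        (win n M r).filter (fun m => p * (p * k + 1) ∣ m))) := by
    intro m hm
    rw [Finset.mem_filter] at hm
    obtain ⟨hm, p, q, hp, hq, hzp, hpm, hqm, hpq, hqQ⟩ := hm
    obtain ⟨k, hk⟩ := hpq
    have hq2 := hq.two_le
    have hqk : q = p * k + 1 := by omega
    subst hqk
    have hk0 : 1 ≤ k := by
      rcases Nat.eq_zero_or_pos k with h | h
      · subst h
        simp at hq2
      · exact h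
    have hpk : p ≤ p * k := Nat.le_mul_of_pos_right _ hk0
    have hkp : k ≤ p * k := Nat.le_mul_of_pos_left _ hp.pos
    simp only [Finset.mem_biUnion]
    refine ⟨p, ?_, k, ?_, ?_⟩
    · rw [hJ, Finset.mem_filter, Finset.mem_Ioc]
      exact ⟨⟨hzp, by omega⟩, hp⟩
    · rw [hI]
      simp only [Finset.mem_filter, Finset.mem_Ico]
      exact ⟨⟨hk0, by omega⟩, hq, hqQ⟩
    · rw [Finset.mem_filter]
      refine ⟨hm, ?_⟩
      have hc : Nat.Coprime p (p * k + 1) := by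
        rw [Nat.coprime_primes hp hq]
        omega
      exact hc.mul_dvd_of_dvd_of_dvd hpm hqm
  have h1 : (((win n M r).filter (fun m => ∃ p q : ℕ, p.Prime ∧ q.Prime ∧ z < p ∧ p ∣ m ∧ q ∣ m ∧
        p ∣ q - 1 ∧ q ≤ Q)).card : ℝ) ≤
      ∑ p ∈ J, ∑ k ∈ I p,
        (((win n M r).filter (fun m => p * (p * k + 1) ∣ m)).card : ℝ) := by
    have := (Finset.card_le_card hsub).trans (Finset.card_biUnion_le)
    have h2 : ∑ p ∈ J, ((I p).biUnion (fun k =>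
        (win n M r).filter (fun m => p * (p * k + 1) ∣ m))).card ≤ ∑ p ∈ J, ∑ k ∈ I p,
        ((win n M r).filter (fun m => p * (p * k + 1) ∣ m)).card :=
      Finset.sum_le_sum (fun p _ => Finset.card_biUnion_le)
    exact_mod_cast this.trans h2
  refine h1.trans ?_
  have h2 : ∀ p ∈ J, ∑ k ∈ I p,
        (((win n M r).filter (fun m => p * (p * k + 1) ∣ m)).card : ℝ) ≤
      2 * n^2 / M * (2 * C * ∑ i ∈ Finset.Icc 1 Λ, (i : ℝ)⁻¹) * ((p:ℝ)^2)⁻¹ + (Q : ℝ) / p := by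
    intro p hp
    rw [hJ, Finset.mem_filter, Finset.mem_Ioc] at hp
    have hpp := hp.2
    have hp0 : (0:ℝ) < p := by exact_mod_cast hpp.pos
    have h3 : ∀ k ∈ I p, (((win n M r).filter (fun m => p * (p * k + 1) ∣ m)).card : ℝ) ≤
        2 * n^2 / M * ((p:ℝ)^2)⁻¹ * (k:ℝ)⁻¹ + 1 := by
      intro k hk
      rw [hI] at hk
      simp only [Finset.mem_filter, Finset.mem_Ico] at hk
      have hk0 : (0:ℝ) < k := by exact_mod_cast hk.1.1
      have := card_dvd (n := n) (M := M) (r := r) (d := p * (p * k + 1)) P.hM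
        (Nat.mul_pos hpp.pos (by omega)) hr
      refine this.trans ?_
      push_cast
      have h4 : 2 * (n:ℝ)^2 / M / (p * (p * k + 1)) ≤ 2 * n^2 / M * ((p:ℝ)^2)⁻¹ * (k:ℝ)⁻¹ := by
        rw [div_eq_mul_inv (2 * (n:ℝ)^2 / M), mul_assoc (2 * (n:ℝ)^2 / M), ← mul_inv]
        have : (p:ℝ)^2 * k ≤ p * (p * k + 1) := by nlinarith
        gcongr
      linarith
    refine (Finset.sum_le_sum h3).trans ?_
    rw [Finset.sum_add_distrib, ← Finset.mul_sum]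
    have h5 : ∑ k ∈ I p, (k:ℝ)⁻¹ ≤ 2 * C * ∑ i ∈ Finset.Icc 1 Λ, (i : ℝ)⁻¹ := by
      refine le_trans ?_ (dyadic hC hbt hpp Λ)
      apply Finset.sum_le_sum_of_subset_of_nonneg
      · intro k hk
        rw [hI] at hk
        simp only [Finset.mem_filter] at hk ⊢
        exact ⟨hk.1, hk.2.1⟩
      · intro k _ _
        positivity
    have h6 : ∑ k ∈ I p, (1:ℝ) ≤ (Q : ℝ) / p := by
      rw [Finset.sum_const, nsmul_eq_mul, mul_one]
      have h7 : (I p).card ≤ Q / p := by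
        have : I p ⊆ Finset.Icc 1 (Q / p) := by
          intro k hk
          rw [hI] at hk
          simp only [Finset.mem_filter, Finset.mem_Ico] at hk
          rw [Finset.mem_Icc]
          refine ⟨hk.1.1, ?_⟩
          rw [Nat.le_div_iff_mul_le hpp.pos, mul_comm]
          omega
        have := Finset.card_le_card this
        simpa using this
      have h8 : ((I p).card : ℝ) ≤ ((Q / p : ℕ) : ℝ) := by exact_mod_cast h7
      exact h8.trans Nat.cast_div_le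
    have h9 : 2 * (n:ℝ)^2 / M * ((p:ℝ)^2)⁻¹ * ∑ k ∈ I p, (k:ℝ)⁻¹ ≤
        2 * (n:ℝ)^2 / M * ((p:ℝ)^2)⁻¹ * (2 * C * ∑ i ∈ Finset.Icc 1 Λ, (i : ℝ)⁻¹) := by
      gcongr
    have h10 : 2 * (n:ℝ)^2 / M * ((p:ℝ)^2)⁻¹ * (2 * C * ∑ i ∈ Finset.Icc 1 Λ, (i : ℝ)⁻¹) =
      2 * n^2 / M * (2 * C * ∑ i ∈ Finset.Icc 1 Λ, (i : ℝ)⁻¹) * ((p:ℝ)^2)⁻¹ := by ring
    linarith
  refine (Finset.sum_le_sum h2).trans ?_
  rw [Finset.sum_add_distrib, ← Finset.mul_sum]
  have h3 : ∑ p ∈ J, ((p:ℝ)^2)⁻¹ ≤ (z:ℝ)⁻¹ := by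
    refine le_trans ?_ (sum_inv_sq (z := z) P.hz Q)
    apply Finset.sum_le_sum_of_subset_of_nonneg (Finset.filter_subset _ _)
    intro p _ _
    positivity
  have h4 : ∑ p ∈ J, (Q:ℝ) / p ≤ Q * (1 + Real.log Q) := by
    refine le_trans ?_ (sum_div_le z Q)
    apply Finset.sum_le_sum_of_subset_of_nonneg (Finset.filter_subset _ _)
    intro p _ _
    positivity
  have h5 : 0 ≤ ∑ i ∈ Finset.Icc 1 Λ, (i : ℝ)⁻¹ := Finset.sum_nonneg (fun i _ => by positivity)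
  gcongr

end Q43.Cous
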