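import Mathlib
import Pool.Agent.Q43.Cous.Bad

set_option autoImplicit false

/-!
# Cousin cyclic numbers between consecutive cubes: the large `q` part
-/

namespace Q43.Cous

open Finset
open scoped Classical

variable {n s z M T r : ℕ} {g : ℝ}

/-- the set of `q` for given `p t`. -/
noncomputable def V (n M r p t : ℕ) : Finset ℕ :=
  (Finset.Ioc (n^3/(p*t)) (n^3/(p*t) + (2*n^2/(p*t)+1))).filter
    (fun q => q.Prime ∧ p ∣ q - 1 ∧ q * (p*t) ∈ win n M r)

noncomputable def W (n M r p t : ℕ) : Finset ℕ :=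
  (win n M r).filter (fun m => ∃ q : ℕ, q.Prime ∧ p ∣ q - 1 ∧ m = q*(p*t))

lemma W_le_V {p t : ℕ} (hp : 0 < p) (ht : 0 < t) : (W n M r p t).card ≤ (V n M r p t).card := by
  have hb : 0 < p * t := Nat.mul_pos hp ht
  have hsub : W n M r p t ⊆ (V n M r p t).image (fun q => q * (p*t)) := by
    intro m hm
    rw [W, Finset.mem_filter] at hm
    obtain ⟨hm, q, hq, hpq, rfl⟩ := hm
    rw [Finset.mem_image]
    refine ⟨q, ?_, rfl⟩
    rw [V, Finset.mem_filter, Finset.mem_Ioc]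
    have h1 := (mem_win.mp hm).1
    refine ⟨⟨?_, ?_⟩, hq, hpq, hm⟩
    · rw [Nat.div_lt_iff_lt_mul hb]
      exact h1.1
    · have h2 := Nat.lt_mul_div_succ (n^3) hb
      have h3 := Nat.lt_mul_div_succ (2*n^2) hb
      have h4 : q * (p*t) < (p*t) * (n^3/(p*t) + 1) + (p*t) * (2*n^2/(p*t)+1) := by omega
      have h5 : (p*t) * q < (p*t) * ((n^3/(p*t) + 1) + (2*n^2/(p*t)+1)) := by
        rw [mul_add, mul_comm (p*t) q]
        exact h4
      have := Nat.lt_of_mul_lt_mul_left h5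
      omega
  exact (Finset.card_le_card hsub).trans Finset.card_image_le

lemma V_win {p t : ℕ} : ∀ m ∈ V n M r p t,
    n^3/(p*t) < m ∧ m ≤ n^3/(p*t) + (2*n^2/(p*t)+1) := by
  intro m hm
  rw [V, Finset.mem_filter, Finset.mem_Ioc] at hm
  exact hm.1

lemma V_prime {p t : ℕ} : ∀ m ∈ V n M r p t, m.Prime := by
  intro m hm
  rw [V, Finset.mem_filter, Finset.mem_Ioc] at hm
  exact hm.2.1

lemma V_coprime {p t : ℕ} (hr : Nat.Coprime r M) : ∀ m ∈ V n M r p t,
    Nat.Coprime (p * t) M ∧ Nat.Coprime p M := by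
  intro m hm
  rw [V, Finset.mem_filter, Finset.mem_Ioc] at hm
  have h := coprime_of_mem hr hm.2.2.2
  have h1 : Nat.Coprime (p * t) M := Nat.Coprime.coprime_dvd_left (dvd_mul_left _ _) h
  exact ⟨h1, Nat.Coprime.coprime_dvd_left (dvd_mul_right _ _) h1⟩

lemma V_modEq {p t : ℕ} (hr : Nat.Coprime r M) :
    ∀ m ∈ V n M r p t, ∀ m' ∈ V n M r p t, m ≡ m' [MOD (p * M)] := by
  intro m hm m' hm'
  obtain ⟨hc1, hc2⟩ := V_coprime hr m hm
  have hP := V_prime m hm
  have hP' := V_prime m' hm'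
  rw [V, Finset.mem_filter, Finset.mem_Ioc] at hm hm'
  rw [← Nat.modEq_and_modEq_iff_modEq_mul hc2]
  refine ⟨?_, ?_⟩
  · have h1 : 1 ≡ m [MOD p] := (Nat.modEq_iff_dvd' hP.one_lt.le).mpr hm.2.2.1
    have h2 : 1 ≡ m' [MOD p] := (Nat.modEq_iff_dvd' hP'.one_lt.le).mpr hm'.2.2.1
    exact h1.symm.trans h2
  · have h1 : m * (p * t) ≡ m' * (p * t) [MOD M] :=
      (mem_win.mp hm.2.2.2).2.trans (mem_win.mp hm'.2.2.2).2.symm
    exact Nat.ModEq.cancel_right_of_coprime (by rw [Nat.gcd_comm]; exact hc1) h1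

/-- the real parameter. -/
noncomputable def u (n M p t : ℕ) : ℝ := 2 * n^2 / M * ((p:ℝ)^2)⁻¹ * (t:ℝ)⁻¹

lemma K_le {p t : ℕ} (hM : 0 < M) (hp : 0 < p) :
    ((((2*n^2/(p*t)+1) / (p * M) + 1 : ℕ)) : ℝ) ≤ u n M p t + 2 := by
  push_cast
  have h1 : (((2*n^2/(p*t)+1) / (p * M) : ℕ) : ℝ) ≤
      ((2*n^2/(p*t)+1 : ℕ) : ℝ) / ((p * M : ℕ) : ℝ) := Nat.cast_div_le
  have h2 : ((2*n^2/(p*t) : ℕ) : ℝ) ≤ ((2*n^2 : ℕ) : ℝ) / ((p * t : ℕ) : ℝ) := Nat.cast_div_le
  push_cast at h1 h2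
  have hpM : (1:ℝ) ≤ p * M := by exact_mod_cast Nat.mul_pos hp hM
  have h3 : (((2*n^2/(p*t) : ℕ) : ℝ) + 1) / (p * M) ≤ ((2:ℝ)*n^2/(p*t)) / (p * M) + 1 := by
    rw [add_div]
    have : (1:ℝ) / (p * M) ≤ 1 := by
      rw [div_le_one (by linarith)]
      exact hpM
    have h4 : ((2*n^2/(p*t) : ℕ) : ℝ) / (p * M) ≤ ((2:ℝ)*n^2/(p*t)) / (p * M) := by
      gcongr
    linarith
  have h5 : ((2:ℝ)*n^2/(p*t)) / (p * M) = u n M p t := by
    rw [u]
    field_simp
  linarith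

lemma lt_K {p t : ℕ} (hM : 0 < M) (hp : 0 < p) (ht : 0 < t) :
    u n M p t < ((((2*n^2/(p*t)+1) / (p * M) + 1 : ℕ)) : ℝ) := by
  have hb : 0 < p * t := Nat.mul_pos hp ht
  have hc : 0 < p * M := Nat.mul_pos hp hM
  have h3 := Nat.lt_mul_div_succ (2*n^2) hb
  have h2 := Nat.lt_mul_div_succ (2*n^2/(p*t) + 1) hc
  have h4 : 2 * n^2 < (p*t) * ((p * M) * ((2*n^2/(p*t)+1) / (p * M) + 1)) :=
    lt_of_lt_of_le h3 (Nat.mul_le_mul_left _ h2.le)
  have h5 : (2:ℝ) * n^2 < (p*t) * ((p * M) * ((((2*n^2/(p*t)+1) / (p * M) + 1 : ℕ)) : ℝ)) := by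
    exact_mod_cast h4
  have hp' : (0:ℝ) < p := by exact_mod_cast hp
  have ht' : (0:ℝ) < t := by exact_mod_cast ht
  have hM' : (0:ℝ) < M := by exact_mod_cast hM
  have h6 : u n M p t = (2:ℝ) * n^2 / ((p*t) * (p * M)) := by
    rw [u]
    field_simp
  rw [h6, div_lt_iff₀ (by positivity)]
  linarith

lemma W_trivial {p t : ℕ} (hM : 0 < M) (hp : 0 < p) (ht : 0 < t) (hr : Nat.Coprime r M) :
    ((W n M r p t).card : ℝ) ≤ u n M p t + 2 := by
  have h1 := card_le_of_modEq (S := V n M r p t) V_win (V_modEq hr)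
  have h2 : ((W n M r p t).card : ℝ) ≤ ((((2*n^2/(p*t)+1) / (p * M) + 1 : ℕ)) : ℝ) := by
    exact_mod_cast (W_le_V hp ht).trans h1
  exact h2.trans (K_le hM hp)

lemma W_bt (P : Par n s z M T g) {p t : ℕ} (hp : p.Prime) (ht : 0 < t) (hr : Nat.Coprime r M)
    (hpT : p ≤ T) (hpt : p * t ≤ 8 * n * s) :
    ((W n M r p t).card : ℝ) ≤ 352 * g / Real.log n * u n M p t := by
  have hM := P.hM
  have hn0 : (16:ℝ) ≤ n := by exact_mod_cast P.hn
  have hlog : 0 < Real.log n := Real.log_pos (by linarith)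
  have hM' : (0:ℝ) < M := by exact_mod_cast hM
  have hp' : (0:ℝ) < p := by exact_mod_cast hp.pos
  have ht' : (0:ℝ) < t := by exact_mod_cast ht
  have htot : (0:ℝ) < Nat.totient M := by exact_mod_cast Nat.totient_pos.mpr hM
  have hg0 : 0 ≤ g := le_trans (by positivity) P.hg
  have hT0 : (0:ℝ) < T := by
    have := hp.pos
    exact_mod_cast (by omega : 0 < T)
  have hs0 : 0 < s := by
    rcases Nat.eq_zero_or_pos s with h | h
    · have h1 := P.hs4
      have h2 := P.hn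
      subst h
      omega
    · exact h
  have hs0' : (0:ℝ) < s := by exact_mod_cast hs0
  -- lower bound of u
  have hu4 : (n:ℝ) ≤ (u n M p t)^4 := by
    have h1 : (n:ℝ) * (4 * M * T)^4 ≤ (s:ℝ)^4 := by exact_mod_cast P.hv
    have h2 : (s:ℝ) / (4 * M * T) ≤ u n M p t := by
      have h3 : u n M p t = (2:ℝ) * n^2 / ((p*t) * (p * M)) := by
        rw [u]
        field_simp
      rw [h3, div_le_div_iff₀ (by positivity) (by positivity)]
      have h4 : ((p:ℝ) * t) ≤ 8 * n * s := by exact_mod_cast hpt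
      have h5 : (p:ℝ) ≤ T := by exact_mod_cast hpT
      have h6 : (s:ℝ) * s ≤ n := by exact_mod_cast P.hs
      calc (s:ℝ) * ((p * t) * (p * M)) ≤ s * ((8 * n * s) * (T * M)) := by gcongr
        _ = (s * s) * (8 * n * (T * M)) := by ring
        _ ≤ n * (8 * n * (T * M)) := by gcongr
        _ = 2 * (n:ℝ)^2 * (4 * M * T) := by ring
    calc (n:ℝ) ≤ ((s:ℝ) / (4 * M * T))^4 := by
          rw [div_pow, le_div_iff₀ (by positivity)]
          exact h1
      _ ≤ _ := by gcongr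
  have hu0 : 0 ≤ u n M p t := by
    rw [u]
    positivity
  have hu2 : 2 ≤ u n M p t := by
    by_contra hcon
    push Not at hcon
    have : (u n M p t)^4 < 2^4 := by gcongr
    linarith
  have hlogu : Real.log n / 4 ≤ Real.log (u n M p t) := by
    have := Real.log_le_log (by linarith) hu4
    rw [Real.log_pow] at this
    push_cast at this
    linarith
  rcases (V n M r p t).eq_empty_or_nonempty with he | hne
  · have h1 := W_le_V (n := n) (M := M) (r := r) hp.pos ht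
    rw [he, Finset.card_empty] at h1
    have h2 : (W n M r p t).card = 0 := by omega
    rw [h2, Nat.cast_zero]
    positivity
  obtain ⟨q, hq⟩ := hne
  obtain ⟨-, hcp⟩ := V_coprime hr q hq
  set K : ℕ := (2*n^2/(p*t)+1) / (p * M) + 1 with hK
  have hKu : u n M p t < (K:ℝ) := lt_K hM hp.pos ht
  have hKu2 : (K:ℝ) ≤ u n M p t + 2 := K_le hM hp.pos
  have hK2 : 2 ≤ K := by
    have : (2:ℝ) < K := lt_of_le_of_lt hu2 hKu
    have : 2 < K := by exact_mod_cast this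
    omega
  have h1 := card_primes_le (S := V n M r p t) (Nat.mul_pos hp.pos hM) V_win V_prime
    (V_modEq hr) hK2
  have h2 : ((W n M r p t).card : ℝ) ≤ ((V n M r p t).card : ℝ) := by
    exact_mod_cast W_le_V hp.pos ht
  refine (h2.trans h1).trans ?_
  rw [← hK]
  have h3 : (((p * M : ℕ) : ℝ) / Nat.totient (p * M)) ≤ 2 * g := by
    rw [Nat.totient_mul hcp]
    push_cast
    rw [mul_div_mul_comm]
    exact mul_le_mul (ratio_le hp) P.hg (by positivity) (by norm_num)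
  have h4 : Real.log n / 4 ≤ Real.log (K:ℝ) :=
    hlogu.trans (Real.log_le_log (by linarith) hKu.le)
  have h5 : (K:ℝ) ≤ 2 * u n M p t := by linarith
  calc 22 * (((p * M : ℕ) : ℝ) / Nat.totient (p * M)) * (K:ℝ) / Real.log (K:ℝ)
      ≤ 22 * (2 * g) * (2 * u n M p t) / (Real.log n / 4) := by gcongr
    _ = 352 * g / Real.log n * u n M p t := by
      field_simp
      ring

end Q43.Cous
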