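import Mathlib
import Pool.Agent.Q43.Cous.BadAll

set_option autoImplicit false

/-!
# Cousin cyclic numbers between consecutive cubes: the modulus and the final estimate
-/

namespace Q43.Cous

open Finset
open scoped Classical Nat

/-- product of `1 - 1/p`. -/
noncomputable def G (z : ℕ) : ℝ :=
  ∏ p ∈ (Finset.range (z+1)).filter Nat.Prime, (1 - (p:ℝ)⁻¹)

lemma G_succ (z : ℕ) : G (z+1) = if (z+1).Prime then G z * (1 - ((z+1 : ℕ):ℝ)⁻¹) else G z := by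
  unfold G
  rw [Finset.range_add_one (n := z+1), Finset.filter_insert]
  split_ifs with h
  · rw [Finset.prod_insert (by simp), mul_comm]
  · rfl

lemma G_pos (z : ℕ) : 0 < G z := by
  unfold G
  apply Finset.prod_pos
  intro p hp
  rw [Finset.mem_filter] at hp
  have : (2:ℝ) ≤ p := by exact_mod_cast hp.2.two_le
  have h2 : (p:ℝ)⁻¹ ≤ 2⁻¹ := inv_anti₀ (by norm_num) this
  have : (2:ℝ)⁻¹ < 1 := by norm_num
  linarith

lemma G_bound (k : ℕ) (hk : 1 ≤ k) : 1 ≤ (G (2*k+1))^2 * (3 * (2*k+1)) := by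
  induction k, hk using Nat.le_induction with
  | base =>
    have : G 3 = 1/3 := by
      have h3 : (Finset.range 4).filter Nat.Prime = {2, 3} := by decide
      unfold G
      rw [h3, Finset.prod_pair (by norm_num)]
      norm_num
    rw [show 2 * 1 + 1 = 3 by norm_num, this]
    norm_num
  | succ k hk ih =>
    have h1 : G (2*k+2) = G (2*k+1) := by
      rw [G_succ, if_neg]
      intro hp
      have h2 : 2 ∣ 2*k+1+1 := ⟨k+1, by ring⟩
      have := (Nat.prime_dvd_prime_iff_eq Nat.prime_two hp).mp h2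
      omega
    have h2 : G (2*k+1) * (1 - ((2*k+3 : ℕ):ℝ)⁻¹) ≤ G (2*(k+1)+1) := by
      rw [show 2*(k+1)+1 = (2*k+2)+1 by ring, G_succ (2*k+2), h1]
      have h3 : (0:ℝ) ≤ ((2*k+3 : ℕ):ℝ)⁻¹ := by positivity
      have h4 := G_pos (2*k+1)
      split_ifs
      · rfl
      · nlinarith
    have h5 : (0:ℝ) ≤ 1 - ((2*k+3 : ℕ):ℝ)⁻¹ := by
      have : ((2*k+3 : ℕ):ℝ)⁻¹ ≤ 1 := by
        apply inv_le_one_of_one_le₀
        push_cast
        have : (0:ℝ) ≤ k := Nat.cast_nonneg k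
        linarith
      linarith
    have h6 := G_pos (2*k+1)
    have h7 : (G (2*k+1) * (1 - ((2*k+3 : ℕ):ℝ)⁻¹))^2 ≤ (G (2*(k+1)+1))^2 := by gcongr
    have hk0 : (0:ℝ) ≤ k := Nat.cast_nonneg k
    have h8 : (1 - ((2*k+3 : ℕ):ℝ)⁻¹)^2 * (3 * (2*((k:ℝ)+1)+1)) = 3 * (2*k+2)^2/(2*k+3) := by
      push_cast
      field_simp
      ring
    calc (1:ℝ) ≤ (G (2*k+1))^2 * (3 * (2*k+1)) := ih
      _ ≤ (G (2*k+1))^2 * (3 * (2*k+2)^2/(2*k+3)) := by
        have : 3 * (2*(k:ℝ)+1) ≤ 3 * (2*k+2)^2/(2*k+3) := by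
          rw [le_div_iff₀ (by positivity)]
          nlinarith
        gcongr
      _ = (G (2*k+1) * (1 - ((2*k+3 : ℕ):ℝ)⁻¹))^2 * (3 * (2*((k:ℝ)+1)+1)) := by
        rw [← h8]; ring
      _ ≤ (G (2*(k+1)+1))^2 * (3 * (2*((k:ℝ)+1)+1)) := by gcongr
      _ = _ := by push_cast; ring

lemma G_bound' (z : ℕ) (hz : 3 ≤ z) : 1 ≤ (G z)^2 * (3 * z) := by
  rcases Nat.even_or_odd' z with ⟨k, rfl | rfl⟩
  · obtain ⟨k, rfl⟩ : ∃ j, k = j + 1 := ⟨k-1, by omega⟩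
    have h1 : G (2*(k+1)) = G (2*k+1) := by
      rw [show 2*(k+1) = (2*k+1)+1 by ring, G_succ, if_neg]
      intro hp
      have h2 : 2 ∣ 2*k+1+1 := ⟨k+1, by ring⟩
      have := (Nat.prime_dvd_prime_iff_eq Nat.prime_two hp).mp h2
      omega
    rw [h1]
    refine (G_bound k (by omega)).trans ?_
    have hk0 : (0:ℝ) ≤ k := Nat.cast_nonneg k
    have : 3 * (2*(k:ℝ)+1) ≤ 3 * ((2*(k+1) : ℕ):ℝ) := by
      push_cast
      linarith
    gcongr
  · have := G_bound k (by omega)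
    push_cast
    exact this

/-- the modulus. -/
def Mz (z : ℕ) : ℕ := 3 * primorial z

lemma Mz_pos (z : ℕ) : 0 < Mz z := Nat.mul_pos (by norm_num) (primorial_pos z)

lemma Mz_le (z : ℕ) : Mz z ≤ 3 * 4 ^ z := Nat.mul_le_mul_left _ (primorial_le_four_pow z)

lemma dvd_primorial' {z p : ℕ} (hp : p.Prime) (hz : p ≤ z) : p ∣ primorial z := by
  unfold primorial
  apply Finset.dvd_prod_of_mem (fun p => p)
  rw [Finset.mem_filter, Finset.mem_range]
  exact ⟨by omega, hp⟩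

lemma dvd_Mz {z p : ℕ} (hp : p.Prime) (hz : p ≤ z) : p ∣ Mz z :=
  (dvd_primorial' hp hz).mul_left _

lemma prime_dvd_Mz {z p : ℕ} (hz3 : 3 ≤ z) (hp : p.Prime) (h : p ∣ Mz z) : p ≤ z := by
  rcases (Nat.Prime.dvd_mul hp).mp h with h1 | h1
  · have := (Nat.prime_dvd_prime_iff_eq hp Nat.prime_three).mp h1
    omega
  · unfold primorial at h1
    obtain ⟨q, hq, hpq⟩ := (Prime.dvd_finsetProd_iff hp.prime _).mp h1
    rw [Finset.mem_filter, Finset.mem_range] at hq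
    have := (Nat.prime_dvd_prime_iff_eq hp hq.2).mp hpq
    omega

lemma Mz_ratio {z : ℕ} (hz : 3 ≤ z) : ((Mz z : ℕ) : ℝ) / Nat.totient (Mz z) ≤ Real.sqrt (3 * z) := by
  have hM := Mz_pos z
  have hM' : (0:ℝ) < Mz z := by exact_mod_cast hM
  have h1 : ((Nat.totient (Mz z) : ℕ) : ℝ) = Mz z * G z := by
    have h2 := Nat.totient_eq_mul_prod_factors (Mz z)
    have h3 : (Mz z).primeFactors = (Finset.range (z+1)).filter Nat.Prime := by
      ext p
      rw [Nat.mem_primeFactors, Finset.mem_filter, Finset.mem_range]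
      constructor
      · rintro ⟨hp, hpd, -⟩
        have := prime_dvd_Mz hz hp hpd
        exact ⟨by omega, hp⟩
      · rintro ⟨hpz, hp⟩
        exact ⟨hp, dvd_Mz hp (by omega), hM.ne'⟩
    rw [h3] at h2
    have h4 : ((Nat.totient (Mz z) : ℚ) : ℝ) = (((Mz z : ℕ) : ℚ) *
      ∏ p ∈ (Finset.range (z+1)).filter Nat.Prime, (1 - (p:ℚ)⁻¹) : ℚ) := by rw [h2]
    push_cast at h4
    rw [h4, G]
  have hG := G_pos z
  rw [h1, div_le_iff₀ (by positivity)]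
  have h5 := G_bound' z hz
  have h6 : 1 ≤ Real.sqrt (3 * z) * G z := by
    have h7 : (Real.sqrt (3 * z) * G z)^2 = (G z)^2 * (3 * z) := by
      rw [mul_pow, Real.sq_sqrt (by positivity)]
      ring
    have h8 : (1:ℝ)^2 ≤ (Real.sqrt (3 * z) * G z)^2 := by
      rw [h7]; simpa using h5
    exact (abs_le_of_sq_le_sq' h8 (by positivity)).2
  calc (Mz z : ℝ) = Mz z * 1 := by ring
    _ ≤ Mz z * (Real.sqrt (3 * z) * G z) := by gcongr
    _ = _ := by ring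

lemma Mz_le' (z : ℕ) : Mz z ≤ 2 ^ (2 * z + 2) := by
  refine (Mz_le z).trans ?_
  rw [pow_add, pow_mul]
  norm_num
  omega

/-- The parameters. -/
lemma par_of {n z : ℕ} (hz : 26 ≤ z) (hn : 2 ^ (z^2) ≤ n) :
    Par n (Nat.sqrt n) z (Mz z) ((z+1)^4) (Real.sqrt (3 * z)) := by
  have hs4 : n ≤ 4 * Nat.sqrt n * Nat.sqrt n := by
    have h1 := Nat.lt_succ_sqrt n
    have h2 : 1 ≤ Nat.sqrt n := by
      rw [Nat.le_sqrt]
      have : 1 ≤ 2 ^ (z^2) := Nat.one_le_two_pow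
      omega
    simp only [Nat.succ_eq_add_one] at h1
    nlinarith
  have hbig : 16 * (4 * Mz z * (z+1)^4)^4 ≤ n := by
    have h1 : z + 1 ≤ 2 ^ z := Nat.lt_two_pow_self
    have h2 : 4 * Mz z * (z+1)^4 ≤ 2 ^ (6 * z + 4) := by
      calc 4 * Mz z * (z+1)^4 ≤ 4 * 2 ^ (2 * z + 2) * (2 ^ z)^4 :=
            Nat.mul_le_mul (Nat.mul_le_mul_left _ (Mz_le' z)) (Nat.pow_le_pow_left h1 4)
        _ = 2 ^ (6 * z + 4) := by
          rw [← pow_mul, show 4 = 2^2 by norm_num, ← pow_add, ← pow_add]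
          congr 1
          ring
    calc 16 * (4 * Mz z * (z+1)^4)^4 ≤ 16 * (2 ^ (6 * z + 4))^4 :=
          Nat.mul_le_mul_left _ (Nat.pow_le_pow_left h2 4)
      _ = 2 ^ (24 * z + 20) := by
        rw [← pow_mul, show 16 = 2^4 by norm_num, ← pow_add]
        congr 1
        ring
      _ ≤ 2 ^ (z^2) := Nat.pow_le_pow_right (by norm_num) (by nlinarith)
      _ ≤ n := hn
  refine ⟨by omega, ?_, Nat.sqrt_le n, hs4, Mz_pos z, fun p hp h => dvd_Mz hp h,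
    Mz_ratio (by omega), ?_, ?_⟩
  · have : 0 < 4 * Mz z * (z+1)^4 := by
      have := Mz_pos z
      positivity
    have h2 : 1 ≤ (4 * Mz z * (z+1)^4)^4 := Nat.one_le_pow _ _ this
    omega
  · calc z ≤ z + 1 := by omega
      _ = (z+1)^1 := by ring
      _ ≤ (z+1)^4 := Nat.pow_le_pow_right (by omega) (by omega)
  · have h3 : n * (16 * (4 * Mz z * (z+1)^4)^4) ≤ 16 * (Nat.sqrt n)^4 := by
      calc n * (16 * (4 * Mz z * (z+1)^4)^4) ≤ n * n := Nat.mul_le_mul_left _ hbig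
        _ ≤ (4 * Nat.sqrt n * Nat.sqrt n) * (4 * Nat.sqrt n * Nat.sqrt n) :=
          Nat.mul_le_mul hs4 hs4
        _ = _ := by ring
    nlinarith

/-- The error term. -/
noncomputable def err (C : ℝ) (z : ℕ) : ℝ :=
  (1 + 2 * C * (1 + Real.log ((2 * (z+1)^2 : ℕ))) + 1408 * Real.sqrt (3 * z)) * (z:ℝ)⁻¹ +
    4 * ((z:ℝ)+1)⁻¹ ^ 2 + (z:ℝ)⁻¹

lemma bad_le_err {C : ℝ} (hC : 0 < C)
    (hbt : ∀ q l : ℕ, 1 ≤ q →
      (((Finset.Ico (2 ^ l) (2 ^ (l + 1))).filter (fun k => (q * k + 1).Prime)).card : ℝ) ≤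
        C * ((q : ℝ) / (Nat.totient q)) * 2 ^ l / ((l : ℝ) + 1))
    {n z r : ℕ} (hz : 26 ≤ z) (hn : 2 ^ (z^2) ≤ n) (hn2 : n < 2 ^ ((z+1)^2))
    (hr : Nat.Coprime r (Mz z)) :
    (((win n (Mz z) r).filter (fun m => ¬ Nat.Coprime m (Nat.totient m))).card : ℝ) ≤
      2 * n^2 / Mz z * err C z := by
  have P := par_of hz hn
  have hQ : n * Nat.sqrt n ≤ 2 ^ (2 * (z+1)^2) := by
    calc n * Nat.sqrt n ≤ n * n := Nat.mul_le_mul_left _ P.s_le
      _ ≤ 2 ^ ((z+1)^2) * 2 ^ ((z+1)^2) := Nat.mul_le_mul hn2.le hn2.le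
      _ = 2 ^ (2 * (z+1)^2) := by rw [← pow_add]; congr 1; ring
  have h := bad_le hC hbt P hr hQ
  have hlog1 := P.log_ge
  have hM' : (0:ℝ) < Mz z := by exact_mod_cast Mz_pos z
  have hz' : (26:ℝ) ≤ z := by exact_mod_cast hz
  have hn0 : (16:ℝ) ≤ n := by exact_mod_cast P.hn
  have hlogn : Real.log n ≤ ((z:ℝ)+1)^2 := by
    have h1 : (n:ℝ) ≤ 2 ^ ((z+1)^2) := by exact_mod_cast hn2.le
    have h2 := Real.log_le_log (by linarith) h1
    rw [Real.log_pow] at h2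
    have h3 : Real.log 2 ≤ 1 := by
      have := Real.log_two_lt_d9
      linarith
    push_cast at h2
    have h4 : (0:ℝ) ≤ ((z:ℝ)+1)^2 := by positivity
    nlinarith
  have h1 : 4 * Real.log n * ((((z+1)^4 : ℕ) : ℝ))⁻¹ ≤ 4 * ((z:ℝ)+1)⁻¹ ^ 2 := by
    push_cast
    have h2 : 4 * Real.log n * (((z:ℝ)+1)^4)⁻¹ ≤ 4 * ((z:ℝ)+1)^2 * (((z:ℝ)+1)^4)⁻¹ := by
      gcongr
    refine h2.trans (le_of_eq ?_)
    field_simp
  have hsq : (4 * Mz z * (z+1)^4)^2 ≤ Nat.sqrt n := by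
    have h2 := P.hv
    have h3 := P.hs
    have h4 : (Nat.sqrt n)^2 * ((4 * Mz z * (z+1)^4)^2)^2 ≤ (Nat.sqrt n)^2 * (Nat.sqrt n)^2 := by
      calc (Nat.sqrt n)^2 * ((4 * Mz z * (z+1)^4)^2)^2 ≤ n * (4 * Mz z * (z+1)^4)^4 := by
            rw [← pow_mul, pow_two (Nat.sqrt n)]
            exact Nat.mul_le_mul_right _ h3
        _ ≤ (Nat.sqrt n)^4 := h2
        _ = _ := by ring
    have h5 : 0 < (Nat.sqrt n)^2 := by
      have h6 := P.hs4
      have h7 := P.hn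
      rcases Nat.eq_zero_or_pos (Nat.sqrt n) with h | h
      · rw [h] at h6
        omega
      · positivity
    have h6 := Nat.le_of_mul_le_mul_left h4 h5
    exact (Nat.pow_le_pow_iff_left (by norm_num)).mp h6
  have h2 : 71 * ((n:ℝ) * Nat.sqrt n) * Real.log n ≤ 2 * n^2 / Mz z * (z:ℝ)⁻¹ := by
    have h3 : (71:ℝ) * (z+1)^2 * (Mz z) * z ≤ 2 * Nat.sqrt n := by
      have h4 : 71 * (z+1)^2 * (Mz z) * z ≤ 2 * Nat.sqrt n := by
        have h5 : 71 * (z+1)^2 * (Mz z) * z ≤ (4 * Mz z * (z+1)^4)^2 := by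
          have hM1 : 1 ≤ Mz z := Mz_pos z
          have h6 : 71 * z ≤ 16 * (z+1)^6 := by
            have h8 : (z+1)^2 ≤ (z+1)^6 := Nat.pow_le_pow_right (by omega) (by omega)
            nlinarith
          calc 71 * (z+1)^2 * (Mz z) * z = (z+1)^2 * Mz z * (71 * z) := by ring
            _ ≤ (z+1)^2 * (Mz z * Mz z) * (16 * (z+1)^6) := by
              apply Nat.mul_le_mul _ h6
              apply Nat.mul_le_mul_left
              nlinarith
            _ = _ := by ring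
        omega
      exact_mod_cast h4
    have hs2 : ((Nat.sqrt n : ℕ):ℝ) * Nat.sqrt n ≤ n := by exact_mod_cast P.hs
    rw [← div_eq_mul_inv, le_div_iff₀ (by positivity), le_div_iff₀ hM']
    calc 71 * ((n:ℝ) * Nat.sqrt n) * Real.log n * z * Mz z
        ≤ 71 * ((n:ℝ) * Nat.sqrt n) * ((z:ℝ)+1)^2 * z * Mz z := by gcongr
      _ = n * Nat.sqrt n * (71 * (z+1)^2 * (Mz z) * z) := by ring
      _ ≤ n * Nat.sqrt n * (2 * Nat.sqrt n) := by gcongr
      _ = 2 * n * (Nat.sqrt n * Nat.sqrt n) := by ring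
      _ ≤ 2 * n * n := by gcongr
      _ = 2 * (n:ℝ)^2 := by ring
  refine h.trans ?_
  rw [err]
  have h3 : 2 * (n:ℝ)^2 / Mz z * (4 * Real.log n * ((((z+1)^4 : ℕ) : ℝ))⁻¹) ≤
      2 * (n:ℝ)^2 / Mz z * (4 * ((z:ℝ)+1)⁻¹ ^ 2) := by gcongr
  rw [mul_add, mul_add, mul_add]
  linarith

end Q43.Cous
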