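import Mathlib
import Pool.Agent.Q43.Cous.Modulus

set_option autoImplicit false

/-!
# Cousin cyclic numbers between consecutive cubes: final count
-/

namespace Q43.Cous

open Finset
open scoped Classical Nat

lemma err_le {C : ℝ} (hC : 0 < C) {z : ℕ} (hz : 1 ≤ z) :
    err C z ≤ (2822 + 18 * C) * (Real.sqrt z)⁻¹ := by
  have hz' : (1:ℝ) ≤ z := by exact_mod_cast hz
  have hz0 : (0:ℝ) < z := by linarith
  set w := Real.sqrt z with hw
  have hw1 : 1 ≤ w := by rw [hw, Real.one_le_sqrt]; exact hz'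
  have hw0 : 0 < w := by linarith
  have hww : w * w = z := Real.mul_self_sqrt hz0.le
  have h1 : Real.log ((2 * (z+1)^2 : ℕ)) ≤ 8 * w := by
    push_cast
    have h2 : 2 * ((z:ℝ)+1)^2 ≤ (4 * z)^2 := by nlinarith
    have h3 : Real.log (2 * ((z:ℝ)+1)^2) ≤ Real.log ((4 * z)^2) :=
      Real.log_le_log (by positivity) h2
    refine h3.trans ?_
    have h4 : (4 * (z:ℝ)) = (2 * w)^2 := by
      rw [← hww]; ring
    rw [h4, ← pow_mul, Real.log_pow]
    have h5 := Real.log_le_sub_one_of_pos (show 0 < 2 * w by linarith)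
    push_cast
    linarith
  have h2 : Real.sqrt (3 * z) ≤ 2 * w := by
    rw [Real.sqrt_le_iff]
    refine ⟨by linarith, ?_⟩
    nlinarith
  have h3 : ((z:ℝ)+1)⁻¹ ^ 2 ≤ (z:ℝ)⁻¹ := by
    have h4 : ((z:ℝ)+1)⁻¹ ≤ (z:ℝ)⁻¹ := inv_anti₀ hz0 (by linarith)
    have h5 : ((z:ℝ)+1)⁻¹ ≤ 1 := inv_le_one_of_one_le₀ (by linarith)
    have h6 : 0 ≤ ((z:ℝ)+1)⁻¹ := by positivity
    nlinarith
  have h7 : (z:ℝ)⁻¹ = w⁻¹ * w⁻¹ := by rw [← hww, mul_inv]
  have h8 : (w:ℝ)⁻¹ * w = 1 := inv_mul_cancel₀ hw0.ne'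
  rw [err]
  have h9 : (1 + 2 * C * (1 + Real.log ((2 * (z+1)^2 : ℕ))) + 1408 * Real.sqrt (3 * z)) ≤
      (1 + 2 * C * (1 + 8 * w) + 1408 * (2 * w)) := by gcongr
  have h10 : (1 + 2 * C * (1 + Real.log ((2 * (z+1)^2 : ℕ))) + 1408 * Real.sqrt (3 * z)) * (z:ℝ)⁻¹
      ≤ (1 + 2 * C * (1 + 8 * w) + 1408 * (2 * w)) * (z:ℝ)⁻¹ := by gcongr
  have hinv : 0 < (z:ℝ)⁻¹ := by positivity
  have h11 : (1 + 2 * C * (1 + 8 * w) + 1408 * (2 * w)) + 5 ≤ (2822 + 18 * C) * w := by nlinarith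
  calc _ ≤ (1 + 2 * C * (1 + 8 * w) + 1408 * (2 * w)) * (z:ℝ)⁻¹ + 4 * (z:ℝ)⁻¹ + (z:ℝ)⁻¹ := by
        linarith
    _ = ((1 + 2 * C * (1 + 8 * w) + 1408 * (2 * w)) + 5) * (z:ℝ)⁻¹ := by ring
    _ ≤ ((2822 + 18 * C) * w) * (z:ℝ)⁻¹ := by gcongr
    _ = (2822 + 18 * C) * (Real.sqrt z)⁻¹ := by
      rw [h7, ← hw]
      calc (2822 + 18 * C) * w * (w⁻¹ * w⁻¹) = (2822 + 18 * C) * w⁻¹ * (w⁻¹ * w) := by ring
        _ = _ := by rw [h8, mul_one]

lemma exists_z (C : ℝ) (hC : 0 < C) : ∃ z₀ : ℕ, 26 ≤ z₀ ∧ ∀ z : ℕ, z₀ ≤ z → err C z ≤ 1/16 := by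
  obtain ⟨k, hk⟩ := exists_nat_ge (16 * (2822 + 18 * C))
  refine ⟨k^2 + 26, by omega, ?_⟩
  intro z hz
  refine (err_le hC (by omega)).trans ?_
  have h1 : (16 * (2822 + 18 * C)) ≤ Real.sqrt z := by
    apply Real.le_sqrt_of_sq_le
    have h2 : ((k^2 : ℕ):ℝ) ≤ z := by exact_mod_cast (by omega : k^2 ≤ z)
    push_cast at h2
    have h3 : (16 * (2822 + 18 * C))^2 ≤ (k:ℝ)^2 := by gcongr
    linarith
  have h2 : 0 < Real.sqrt z := by
    have : 0 < 16 * (2822 + 18 * C) := by positivity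
    linarith
  rw [← div_eq_mul_inv, div_le_iff₀ h2]
  linarith

/-- half the modulus. -/
def hz (z : ℕ) : ℕ := Mz z / 2

lemma two_hz {z : ℕ} (h : 3 ≤ z) : 2 * hz z = Mz z :=
  Nat.mul_div_cancel' (dvd_Mz Nat.prime_two (by omega))

lemma primorial_two_mul {z : ℕ} (h : 3 ≤ z) :
    ∃ a, primorial z = 2 * (3 * a) ∧ ¬ 2 ∣ a := by
  have h2 : 2 ∈ (Finset.range (z+1)).filter Nat.Prime := by
    rw [Finset.mem_filter, Finset.mem_range]
    exact ⟨by omega, Nat.prime_two⟩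
  have h3 : 3 ∈ ((Finset.range (z+1)).filter Nat.Prime).erase 2 := by
    rw [Finset.mem_erase, Finset.mem_filter, Finset.mem_range]
    exact ⟨by omega, by omega, Nat.prime_three⟩
  refine ⟨∏ p ∈ (((Finset.range (z+1)).filter Nat.Prime).erase 2).erase 3, p, ?_, ?_⟩
  · unfold primorial
    rw [← Finset.mul_prod_erase _ (fun p => p) h2, ← Finset.mul_prod_erase _ (fun p => p) h3]
  · intro hd
    obtain ⟨q, hq, hpq⟩ := (Prime.dvd_finsetProd_iff Nat.prime_two.prime _).mp hd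
    rw [Finset.mem_erase, Finset.mem_erase, Finset.mem_filter, Finset.mem_range] at hq
    have := (Nat.prime_dvd_prime_iff_eq Nat.prime_two hq.2.2.2).mp hpq
    exact hq.2.1 this.symm

lemma hz_form {z : ℕ} (h : 3 ≤ z) : ∃ a, hz z = 9 * a ∧ a % 2 = 1 := by
  obtain ⟨a, ha, ha2⟩ := primorial_two_mul h
  refine ⟨a, ?_, by omega⟩
  unfold hz Mz
  rw [ha]
  omega

lemma coprime_one {h M r : ℕ} (hM : M = 2 * h) (hodd : h % 2 = 1) (hr : r = 3 * h - 2) (h9 : 9 ≤ h) :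
    Nat.Coprime r M := by
  apply Nat.Coprime.symm
  by_contra hcon
  obtain ⟨p, hp, h1, h2⟩ := Nat.Prime.not_coprime_iff_dvd.mp hcon
  have hp2 : p ≠ 2 := by
    rintro rfl
    omega
  have h3 : p ∣ h := by
    rw [hM] at h1
    rcases (Nat.Prime.dvd_mul hp).mp h1 with h4 | h4
    · exact absurd ((Nat.prime_dvd_prime_iff_eq hp Nat.prime_two).mp h4) hp2
    · exact h4
  have h5 : p ∣ 2 := by
    have h6 : p ∣ 3 * h := h3.mul_left 3
    have h7 : 2 = 3 * h - r := by omega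
    rw [h7]
    exact Nat.dvd_sub h6 h2
  exact hp2 ((Nat.prime_dvd_prime_iff_eq hp Nat.prime_two).mp h5)

lemma coprime_two {h M r : ℕ} (hM : M = 2 * h) (hodd : h % 2 = 1) (hr : r = h + 2) :
    Nat.Coprime r M := by
  apply Nat.Coprime.symm
  by_contra hcon
  obtain ⟨p, hp, h1, h2⟩ := Nat.Prime.not_coprime_iff_dvd.mp hcon
  have hp2 : p ≠ 2 := by
    rintro rfl
    omega
  have h3 : p ∣ h := by
    rw [hM] at h1
    rcases (Nat.Prime.dvd_mul hp).mp h1 with h4 | h4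
    · exact absurd ((Nat.prime_dvd_prime_iff_eq hp Nat.prime_two).mp h4) hp2
    · exact h4
  have h5 : p ∣ 2 := by
    have h7 : 2 = r - h := by omega
    rw [h7]
    exact Nat.dvd_sub h2 h3
  exact hp2 ((Nat.prime_dvd_prime_iff_eq hp Nat.prime_two).mp h5)

/-- lower bound for the number of elements of a residue class in an interval. -/
lemma card_class_ge (A H M v : ℕ) (hM : 0 < M) :
    (H:ℝ) / M - 1 ≤ (((Finset.Ioc A (A+H)).filter (fun x => x ≡ v [MOD M])).card : ℝ) := by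
  have h := Nat.Ioc_filter_modEq_card A (A+H) hM v
  have hM' : (0:ℚ) < M := by exact_mod_cast hM
  have h1 : ((H:ℚ) / M - 1) ≤ (((Finset.Ioc A (A+H)).filter (fun x => x ≡ v [MOD M])).card : ℚ) := by
    have h2 : ((((Finset.Ioc A (A+H)).filter (fun x => x ≡ v [MOD M])).card : ℤ) : ℚ) =
        ((max (⌊(((A+H : ℕ):ℚ) - v) / M⌋ - ⌊((A:ℚ) - v) / M⌋) 0 : ℤ) : ℚ) := by
      exact_mod_cast congrArg (fun t : ℤ => (t : ℚ)) h
    have h3 : (((⌊(((A+H : ℕ):ℚ) - v) / M⌋ - ⌊((A:ℚ) - v) / M⌋ : ℤ)) : ℚ) ≤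
        ((max (⌊(((A+H : ℕ):ℚ) - v) / M⌋ - ⌊((A:ℚ) - v) / M⌋) 0 : ℤ) : ℚ) := by
      exact_mod_cast le_max_left _ _
    rw [← h2] at h3
    push_cast at h3
    have h4 := Int.lt_floor_add_one ((((A:ℚ)+H) - v) / M)
    have h5 := Int.floor_le (((A:ℚ) - v) / M)
    have h6 : (((A:ℚ)+H) - v) / M - ((A:ℚ) - v) / M = H / M := by
      field_simp
      ring
    push_cast
    linarith
  have h7 : (((H:ℚ) / M - 1 : ℚ) : ℝ) ≤
      ((((((Finset.Ioc A (A+H)).filter (fun x => x ≡ v [MOD M])).card : ℚ)) : ℚ) : ℝ) := by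
    exact_mod_cast h1
  push_cast at h7
  exact h7

/-- the good numbers. -/
noncomputable def good (n M r : ℕ) : Finset ℕ :=
  ((Finset.Ioc (n^3) (n^3 + n^2)).filter (fun x => x ≡ r [MOD M])).filter
    (fun c => Nat.Coprime c (Nat.totient c) ∧ Nat.Coprime (c+4) (Nat.totient (c+4)))

theorem good_ge : ∃ z₀ : ℕ, 26 ≤ z₀ ∧ ∀ n z : ℕ, z₀ ≤ z → 2 ^ (z^2) ≤ n → n < 2 ^ ((z+1)^2) →
    (n:ℝ)^2 / (2 * Mz z) ≤ ((good n (Mz z) (3 * hz z - 2)).card : ℝ) := by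
  obtain ⟨C, hC, hbt⟩ := Pool.Agent.H692R2.USS.bt
  obtain ⟨z₀, hz₀, herr⟩ := exists_z C hC
  refine ⟨z₀, hz₀, ?_⟩
  intro n z hz1 hn hn2
  have hz26 : 26 ≤ z := by omega
  have P := par_of hz26 hn
  obtain ⟨a, ha, ha2⟩ := hz_form (z := z) (by omega)
  have hM2 : Mz z = 2 * hz z := (two_hz (by omega)).symm
  have hodd : hz z % 2 = 1 := by omega
  have h9 : 9 ≤ hz z := by omega
  have hr1 : Nat.Coprime (3 * hz z - 2) (Mz z) := coprime_one hM2 hodd rfl h9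
  have hr2 : Nat.Coprime (hz z + 2) (Mz z) := coprime_two hM2 hodd rfl
  have hb1 := bad_le_err hC hbt hz26 hn hn2 hr1
  have hb2 := bad_le_err hC hbt hz26 hn hn2 hr2
  have he := herr z hz1
  set S := (Finset.Ioc (n^3) (n^3 + n^2)).filter (fun x => x ≡ 3 * hz z - 2 [MOD (Mz z)]) with hS
  have hSc := card_class_ge (n^3) (n^2) (Mz z) (3 * hz z - 2) (Mz_pos z)
  rw [← hS] at hSc
  have hn16 := P.hn
  have hsub : S ⊆ good n (Mz z) (3 * hz z - 2) ∪
      (((win n (Mz z) (3 * hz z - 2)).filter (fun m => ¬ Nat.Coprime m (Nat.totient m))) ∪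
      (((win n (Mz z) (hz z + 2)).filter (fun m => ¬ Nat.Coprime m (Nat.totient m))).image
        (fun m => m - 4))) := by
    intro c hc
    have hc' := hc
    rw [hS, Finset.mem_filter, Finset.mem_Ioc] at hc
    rw [Finset.mem_union, Finset.mem_union]
    by_cases h1 : Nat.Coprime c (Nat.totient c)
    · by_cases h2 : Nat.Coprime (c+4) (Nat.totient (c+4))
      · left
        rw [good, Finset.mem_filter]
        exact ⟨hc', h1, h2⟩
      · right; right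
        rw [Finset.mem_image]
        refine ⟨c+4, ?_, by omega⟩
        rw [Finset.mem_filter, mem_win]
        refine ⟨⟨⟨by omega, ?_⟩, ?_⟩, h2⟩
        · have : 4 ≤ n^2 := by nlinarith
          omega
        · have h3 : c + 4 ≡ (3 * hz z - 2) + 4 [MOD (Mz z)] := hc.2.add_right 4
          have h4 : (3 * hz z - 2) + 4 = (hz z + 2) + Mz z := by omega
          rw [h4] at h3
          exact h3.trans (by simp [Nat.ModEq])
    · right; left
      rw [Finset.mem_filter, mem_win]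
      exact ⟨⟨⟨by omega, by omega⟩, hc.2⟩, h1⟩
  have hcard := (Finset.card_le_card hsub).trans ((Finset.card_union_le _ _).trans
    (Nat.add_le_add_left ((Finset.card_union_le _ _).trans
      (Nat.add_le_add_left Finset.card_image_le _)) _))
  have hcard' : (S.card : ℝ) ≤ ((good n (Mz z) (3 * hz z - 2)).card : ℝ) +
      ((((win n (Mz z) (3 * hz z - 2)).filter (fun m => ¬ Nat.Coprime m (Nat.totient m))).card : ℝ)
      + (((win n (Mz z) (hz z + 2)).filter (fun m => ¬ Nat.Coprime m (Nat.totient m))).card : ℝ)) := by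
    exact_mod_cast hcard
  have hM' : (0:ℝ) < Mz z := by exact_mod_cast Mz_pos z
  have h1 : 2 * (n:ℝ)^2 / Mz z * err C z ≤ (n:ℝ)^2 / Mz z * (1/8) := by
    calc 2 * (n:ℝ)^2 / Mz z * err C z ≤ 2 * (n:ℝ)^2 / Mz z * (1/16) := by gcongr
      _ = _ := by ring
  have h2 : (4:ℝ) ≤ (n:ℝ)^2 / Mz z := by
    rw [le_div_iff₀ hM']
    have h3 : 4 * Mz z ≤ n^2 := by
      have h4 : Mz z ≤ 2 ^ (2 * z + 2) := Mz_le' z
      have h5 : 2 ^ (2 * z + 2) ≤ 2 ^ (z^2) := Nat.pow_le_pow_right (by norm_num) (by nlinarith)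
      have h6 : Mz z ≤ n := by omega
      nlinarith
    exact_mod_cast h3
  push_cast at hSc
  have h3 : (n:ℝ)^2 / (2 * Mz z) = (n:ℝ)^2 / Mz z * (1/2) := by
    field_simp
  rw [h3]
  linarith

end Q43.Cous
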